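import Pool.Agent.H4.PRL.LMI
import Pool.Agent.H1.PRL.PLP

/-!
# PRL, module CLA: every class of square norm has a type
-/

set_option autoImplicit false

namespace Pool.PRL

open Polynomial Matrix Pool.AVR Pool.AVS Pool.RZ

namespace CLA

variable {F : Type} [Field F]

/-- The norm of an integral polynomial. -/
noncomputable def nn (f : F[X] × F[X] × F[X]) (p : F[X][X]) : F[X] :=
  (nun_thm ngh_thm F f p).2.choose

theorem nn_norm (f : F[X] × F[X] × F[X]) (p : F[X][X]) :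
    Algebra.norm (RatFunc F) (AdjoinRoot.mk (cubK f) (lf p)) = rf (nn f p) :=
  (nun_thm ngh_thm F f p).2.choose_spec.1

theorem nn_unp {P : F[X]} (hP : Irreducible P) (f : F[X] × F[X] × F[X]) (p : F[X][X]) :
    UnP P f p ↔ ¬ P ∣ nn f p :=
  (nun_thm ngh_thm F f p).2.choose_spec.2.2 P hP

theorem nn_eq {f : F[X] × F[X] × F[X]} {p : F[X][X]} {ν : F[X]}
    (h : Algebra.norm (RatFunc F) (AdjoinRoot.mk (cubK f) (lf p)) = rf ν) : nn f p = ν :=
  NUN.rf_inj ((nn_norm f p).symm.trans h)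

theorem nn_mul (f : F[X] × F[X] × F[X]) (p q : F[X][X]) : nn f (p * q) = nn f p * nn f q := by
  apply nn_eq
  have e : lf (p * q) = lf p * lf q := Polynomial.map_mul _
  rw [e, map_mul, map_mul, nn_norm, nn_norm, ← map_mul]

theorem nn_congr {f : F[X] × F[X] × F[X]} {p q : F[X][X]} (h : cubP f ∣ p - q) :
    nn f p = nn f q := by
  apply nn_eq
  rw [← nn_norm]
  congr 1
  rw [← sub_eq_zero, ← map_sub, AdjoinRoot.mk_eq_zero]
  have h1 := PLP.lf_dvd h
  have e : lf (p - q) = lf p - lf q := Polynomial.map_sub _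
  rwa [e] at h1

theorem nn_pow (f : F[X] × F[X] × F[X]) (p : F[X][X]) (a : ℕ) : nn f (p ^ a) = nn f p ^ a := by
  induction a with
  | zero =>
    rw [pow_zero, pow_zero]
    apply nn_eq
    have e : lf (1 : F[X][X]) = 1 := Polynomial.map_one _
    rw [e, map_one, map_one, rf, map_one]
  | succ a ih => rw [pow_succ, pow_succ, nn_mul, ih]

theorem unp_mul {P : F[X]} (hP : Irreducible P) {f : F[X] × F[X] × F[X]} {p q : F[X][X]}
    (hp : UnP P f p) (hq : UnP P f q) : UnP P f (p * q) := by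
  rw [nn_unp hP] at hp hq ⊢
  rw [nn_mul]
  intro h
  rcases hP.prime.dvd_or_dvd h with h | h
  · exact hp h
  · exact hq h

/-- Cancelling `P`. -/
theorem cancel {P : F[X]} (hP : Irreducible P) {f : F[X] × F[X] × F[X]} {x : F[X][X]}
    (h : cubP f ∣ C P * x) : cubP f ∣ x := by
  have hm : (cubP f).Monic := NUN.cub_monic _ _ _
  rw [← modByMonic_eq_zero_iff_dvd hm] at h ⊢
  rw [← smul_eq_C_mul, smul_modByMonic] at h
  rcases smul_eq_zero.1 h with h | h
  · exact absurd h hP.ne_zero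
  · exact h

/-- The three cases for the reduction of a polynomial. -/
theorem dich {P : F[X]} {f : F[X] × F[X] × F[X]} {e β γ : F[X]} (hP : Irreducible P)
    (hS : Spl P f e β γ) (p : F[X][X]) :
    UnP P f p ∨ (∃ a b : F[X][X], p = (X - C e) * a + C P * b) ∨
      ∃ a b : F[X][X], p = (X ^ 2 + C β * X + C γ) * a + C P * b := by
  obtain ⟨hirr0, hf1, hf2, hf3, -, -, -⟩ := hS
  by_cases h1 : P ∣ p.eval e
  · right
    left
    obtain ⟨a, ha⟩ := X_sub_C_dvd_sub_C_eval (p := p) (a := e)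
    obtain ⟨b, hb⟩ := h1
    refine ⟨a, C b, ?_⟩
    rw [hb, C_mul] at ha
    linear_combination ha
  have : Fact (Irreducible P) := ⟨hP⟩
  set k := AdjoinRoot P with hk
  set φ : F[X] →+* k := AdjoinRoot.mk P with hφ
  have hφs : Function.Surjective φ := AdjoinRoot.mk_surjective
  have hφ0 : ∀ x, φ x = 0 ↔ P ∣ x := fun x => AdjoinRoot.mk_eq_zero
  have ha : φ f.1 = φ β - φ e := by
    rw [← map_sub, ← sub_eq_zero, ← map_sub, hφ0]
    exact hf1
  have hb : φ f.2.1 = φ γ - φ e * φ β := by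
    rw [← map_mul, ← map_sub, ← sub_eq_zero, ← map_sub, hφ0]
    exact hf2
  have hc : φ f.2.2 = -(φ e * φ γ) := by
    rw [eq_neg_iff_add_eq_zero, ← map_mul, ← map_add, hφ0]
    exact hf3
  have hirr : ∀ x : k, x ^ 2 + φ β * x + φ γ ≠ 0 := by
    intro x h0
    obtain ⟨y, rfl⟩ := hφs x
    rw [← map_pow, ← map_mul, ← map_add, ← map_add, hφ0] at h0
    exact hirr0 y h0
  have hpe : (p.map φ).eval (φ e) = φ (p.eval e) := by
    rw [eval_map_apply]
  have hcubmap : (cubP f).map φ = (X - C (φ e)) * (X ^ 2 + C (φ β) * X + C (φ γ)) := by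
    rw [cubP, TY.cub_map, ha, hb, hc, LMI.cub_fac]
  by_cases h2 : (X ^ 2 + C (φ β) * X + C (φ γ)) ∣ p.map φ
  · right
    right
    obtain ⟨a0, ha0⟩ := h2
    obtain ⟨a, rfl⟩ := Polynomial.map_surjective φ hφs a0
    obtain ⟨b, hb⟩ := TYP.lift_red φ P (fun x => (hφ0 x).1)
      (p - (X ^ 2 + C β * X + C γ) * a) (by
        rw [Polynomial.map_sub, ha0, Polynomial.map_mul]
        simp)
    exact ⟨a, b, by linear_combination hb⟩
  · left
    have c1 : IsCoprime (X - C (φ e)) (p.map φ) := by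
      refine (prime_X_sub_C (φ e)).irreducible.coprime_iff_not_dvd.2 ?_
      intro h8
      have h9 : (p.map φ).eval (φ e) = 0 := dvd_iff_isRoot.1 h8
      rw [hpe, hφ0] at h9
      exact h1 h9
    have c2 : IsCoprime (X ^ 2 + C (φ β) * X + C (φ γ)) (p.map φ) :=
      (LMI.q_irr (φ β) (φ γ) hirr).coprime_iff_not_dvd.2 h2
    have c3 : IsCoprime ((cubP f).map φ) (p.map φ) := by
      rw [hcubmap]
      exact c1.mul_left c2
    obtain ⟨u0, v0, huv⟩ := c3
    obtain ⟨u, rfl⟩ := Polynomial.map_surjective φ hφs u0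
    obtain ⟨v, rfl⟩ := Polynomial.map_surjective φ hφs v0
    obtain ⟨r, hr⟩ := TYP.lift_red φ P (fun x => (hφ0 x).1) (u * cubP f + v * p - 1) (by
      rw [Polynomial.map_sub, Polynomial.map_add, Polynomial.map_mul, Polynomial.map_mul, huv,
        Polynomial.map_one, sub_self])
    exact ⟨v, r, ⟨-u, by linear_combination hr⟩⟩

/-- The element `ω`. -/
theorem omega {P : F[X]} {f : F[X] × F[X] × F[X]} {e β γ : F[X]} (hP : Irreducible P)
    (hS : Spl P f e β γ) (r : F[X][X])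
    (hr : (X - C e) * (X ^ 2 + C β * X + C γ) = cubP f - C P * r) :
    UnP P f ((X ^ 2 + C β * X + C γ) ^ 2 + (X - C e) ^ 2 + C P * (r ^ 2 + 1)) := by
  have hq : ¬ P ∣ e ^ 2 + β * e + γ := hS.1 e
  have hq4 : IsCoprime P ((e ^ 2 + β * e + γ) ^ 4) :=
    (hP.coprime_iff_not_dvd.2 hq).pow_right
  obtain ⟨κ', κ, hκ⟩ := hq4
  set q : F[X][X] := X ^ 2 + C β * X + C γ with hqdef
  set Y : F[X][X] := X - C e with hY
  set Z : F[X][X] := X + C (β + e) with hZ
  set δ : F[X] := e ^ 2 + β * e + γ with hδ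
  have hqYZ : q = Y * Z + C δ := by
    rw [hqdef, hY, hZ, hδ]
    simp only [map_add, map_mul, map_pow]
    ring
  have hκC := congrArg (C : F[X] → F[X][X]) hκ
  simp only [map_add, map_mul, map_pow, map_one] at hκC
  refine ⟨(q ^ 2 + Y ^ 2 * Z ^ 4) * C κ, -C κ' - C κ * r * (q * Y * Z ^ 4 + Y * q +
      4 * q ^ 2 * Z - 6 * q * Y * Z ^ 2 + 4 * Y ^ 2 * Z ^ 3) +
      C κ * (r ^ 2 + 1) * (q ^ 2 + Y ^ 2 * Z ^ 4), C κ * (q * Y * Z ^ 4 + Y * q +
      4 * q ^ 2 * Z - 6 * q * Y * Z ^ 2 + 4 * Y ^ 2 * Z ^ 3), ?_⟩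
  have hd : C δ = q - Y * Z := by rw [hqYZ]; ring
  rw [hd] at hκC
  linear_combination (C κ * (q * Y * Z ^ 4 + Y * q +
      4 * q ^ 2 * Z - 6 * q * Y * Z ^ 2 + 4 * Y ^ 2 * Z ^ 3)) * hr + hκC

/-- The uniformizer at the prime of degree one. -/
noncomputable def up (P e : F[X]) : F[X][X] := (X - C e) ^ 2 + C P

/-- Division by the uniformizers. -/
theorem step {P : F[X]} {f : F[X] × F[X] × F[X]} {e β γ : F[X]} (hP : Irreducible P)
    (hS : Spl P f e β γ) (p : F[X][X]) :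
    UnP P f p ∨ ∃ V w : F[X][X], UnP P f V ∧
      (cubP f ∣ V * p - up P e * w ∨ cubP f ∣ V * p - vp P β γ * w) := by
  obtain ⟨r, hr⟩ := PLP.exists_r hS
  obtain ⟨p', r', z, hz⟩ := omega hP hS r hr
  set q : F[X][X] := X ^ 2 + C β * X + C γ with hqdef
  set Y : F[X][X] := X - C e with hY
  have hV : UnP P f (1 + C P * r') := ⟨1, r', by
    have : (1 + C P * r') * 1 - 1 - C P * r' = 0 := by ring
    rw [this]
    exact dvd_zero _⟩
  rcases dich hP hS p with h | ⟨a, b, h⟩ | ⟨a, b, h⟩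
  · exact Or.inl h
  · right
    refine ⟨1 + C P * r', p' * (-(a * q * r) + Y * a + b * (q ^ 2 + C P)), hV, Or.inl ?_⟩
    apply cancel hP
    rw [← hY] at h
    refine ⟨-(z * C P * p) + (-cubP f + 2 * C P * r) * p' * p + (Y ^ 2 + C P) * p' * (a * q), ?_⟩
    change C P * ((1 + C P * r') * p - (Y ^ 2 + C P) *
      (p' * (-(a * q * r) + Y * a + b * (q ^ 2 + C P)))) = _
    rw [h]
    linear_combination (-(C P * (Y * a + C P * b))) * hz -
      ((Y * q + cubP f - C P * r) * p' * (Y * a + C P * b)) * hr +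
      ((Y ^ 2 + C P) * p' * (a * q)) * hr
  · right
    refine ⟨1 + C P * r', p' * (-(a * Y * r) + q * a + b * (Y ^ 2 + C P)), hV, Or.inr ?_⟩
    apply cancel hP
    rw [← hqdef] at h
    refine ⟨-(z * C P * p) + (-cubP f + 2 * C P * r) * p' * p + (q ^ 2 + C P) * p' * (a * Y), ?_⟩
    change C P * ((1 + C P * r') * p - (q ^ 2 + C P) *
      (p' * (-(a * Y * r) + q * a + b * (Y ^ 2 + C P)))) = _
    rw [h]
    linear_combination (-(C P * (q * a + C P * b))) * hz -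
      ((Y * q + cubP f - C P * r) * p' * (q * a + C P * b)) * hr +
      ((q ^ 2 + C P) * p' * (a * Y)) * hr

/-- The norm of a constant. -/
theorem nn_C (f : F[X] × F[X] × F[X]) (x : F[X]) : nn f (C x) = x ^ 3 := by
  apply nn_eq
  have hm := USE.cubK_monic f
  have : Module.Finite (RatFunc F) (AdjoinRoot (cubK f)) := hm.finite_adjoinRoot
  have h1 : AdjoinRoot.mk (cubK f) (lf (C x)) =
      algebraMap (RatFunc F) (AdjoinRoot (cubK f)) (rf x) := by
    rw [lf, Polynomial.map_C]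
    rfl
  have h2 : Module.finrank (RatFunc F) (AdjoinRoot (cubK f)) = 3 := by
    rw [(AdjoinRoot.powerBasis' hm).finrank, AdjoinRoot.powerBasis'_dim]
    exact LM.cub_natDegree _ _ _
  rw [h1, Algebra.norm_algebraMap, h2, ← map_pow]

/-- The norms of the uniformizers. -/
theorem nn_up {P : F[X]} {f : F[X] × F[X] × F[X]} {e β γ : F[X]} (hP : Irreducible P)
    (hS : Spl P f e β γ) {ν : F[X]} (hν : nn f (vp P β γ) = P ^ 2 * ν) (hPν : ¬ P ∣ ν) :
    ∃ ν1 : F[X], nn f (up P e) = P * ν1 ∧ ¬ P ∣ ν1 := by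
  obtain ⟨r, hr⟩ := PLP.exists_r hS
  have hun := omega hP hS r hr
  set q : F[X][X] := X ^ 2 + C β * X + C γ with hqdef
  set Y : F[X][X] := X - C e with hY
  have h3 : cubP f ∣ C P * (q ^ 2 + Y ^ 2 + C P * (r ^ 2 + 1)) - vp P β γ * up P e := by
    refine ⟨-(cubP f - 2 * C P * r), ?_⟩
    unfold vp up
    rw [← hqdef, ← hY]
    linear_combination (-(Y * q) - (cubP f - C P * r)) * hr
  have h4 := nn_congr h3
  rw [nn_mul, nn_mul, nn_C, hν] at h4
  have hP2 : P ^ 2 ≠ 0 := pow_ne_zero 2 hP.ne_zero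
  have h5 : P * nn f (q ^ 2 + Y ^ 2 + C P * (r ^ 2 + 1)) = ν * nn f (up P e) := by
    apply mul_left_cancel₀ hP2
    linear_combination h4
  have h6 : P ∣ nn f (up P e) := by
    have h7 : P ∣ ν * nn f (up P e) := ⟨_, h5.symm⟩
    exact (hP.prime.dvd_or_dvd h7).resolve_left hPν
  obtain ⟨ν1, h7⟩ := h6
  refine ⟨ν1, h7, ?_⟩
  intro h8
  rw [h7] at h5
  have h9 : nn f (q ^ 2 + Y ^ 2 + C P * (r ^ 2 + 1)) = ν * ν1 := by
    apply mul_left_cancel₀ hP.ne_zero
    linear_combination h5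
  exact (nn_unp hP f _).1 hun (h9 ▸ h8.mul_left ν)

/-- The factorization. -/
theorem fac {P : F[X]} {f : F[X] × F[X] × F[X]} {e β γ : F[X]} (hP : Irreducible P)
    (hS : Spl P f e β γ) (hv : P ∣ nn f (vp P β γ)) (hu : P ∣ nn f (up P e)) (n : ℕ) :
    ∀ p0 : F[X][X], ¬ P ^ n ∣ nn f p0 → ∃ (a b : ℕ) (V p : F[X][X]), UnP P f V ∧ UnP P f p ∧
      cubP f ∣ V * p0 - up P e ^ a * vp P β γ ^ b * p := by
  have hone : UnP P f 1 := ⟨1, 0, by
    have : (1 : F[X][X]) * 1 - 1 - C P * 0 = 0 := by ring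
    rw [this]
    exact dvd_zero _⟩
  induction n with
  | zero =>
    intro p0 h
    exact absurd (by rw [pow_zero]; exact one_dvd _) h
  | succ n ih =>
    intro p0 h
    have key : ∀ (π V w : F[X][X]), P ∣ nn f π → UnP P f V → cubP f ∣ V * p0 - π * w →
        ¬ P ^ n ∣ nn f w := by
      intro π V w hπ hV hd hw
      have h1 := nn_congr hd
      rw [nn_mul, nn_mul] at h1
      have h2 : P ^ (n + 1) ∣ nn f V * nn f p0 := by
        rw [h1, pow_succ']
        exact mul_dvd_mul hπ hw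
      have h3 : IsCoprime (P ^ (n + 1)) (nn f V) :=
        (hP.coprime_iff_not_dvd.2 ((nn_unp hP f V).1 hV)).pow_left
      exact h (h3.dvd_of_dvd_mul_left h2)
    rcases step hP hS p0 with h1 | ⟨V, w, hV, h1 | h1⟩
    · exact ⟨0, 0, 1, p0, hone, h1, by
        have : (1 : F[X][X]) * p0 - up P e ^ 0 * vp P β γ ^ 0 * p0 = 0 := by ring
        rw [this]
        exact dvd_zero _⟩
    · obtain ⟨a, b, V', p, hV', hp, z, hz⟩ := ih w (key _ V w hu hV h1)
      obtain ⟨y, hy⟩ := h1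
      refine ⟨a + 1, b, V' * V, p, unp_mul hP hV' hV, hp, V' * y + up P e * z, ?_⟩
      linear_combination V' * hy + up P e * hz
    · obtain ⟨a, b, V', p, hV', hp, z, hz⟩ := ih w (key _ V w hv hV h1)
      obtain ⟨y, hy⟩ := h1
      refine ⟨a, b + 1, V' * V, p, unp_mul hP hV' hV, hp, V' * y + vp P β γ * z, ?_⟩
      linear_combination V' * hy + vp P β γ * hz

/-- Comparing the exponents of `P`. -/
theorem par {P : F[X]} (hP : Irreducible P) {i j : ℕ} {U W : F[X]} (hU : ¬ P ∣ U) (hW : ¬ P ∣ W)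
    (h : P ^ i * U = P ^ j * W) : i = j := by
  have key : ∀ (i j : ℕ) (U W : F[X]), ¬ P ∣ U → P ^ i * U = P ^ j * W → ¬ i < j := by
    intro i j U W hU h hlt
    obtain ⟨k, rfl⟩ := Nat.exists_eq_add_of_lt hlt
    apply hU
    refine ⟨P ^ k * W, ?_⟩
    apply mul_left_cancel₀ (pow_ne_zero i hP.ne_zero)
    rw [h]
    ring
  rcases lt_trichotomy i j with h1 | h1 | h1
  · exact absurd h1 (key i j U W hU h)
  · exact h1
  · exact absurd h1 (key j i W U hW h.symm)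

theorem ndvd_pow {P : F[X]} (hP : Irreducible P) {x : F[X]} (hx : ¬ P ∣ x) (n : ℕ) :
    ¬ P ∣ x ^ n := fun h => hx (hP.prime.dvd_of_dvd_pow h)

theorem ndvd_mul {P : F[X]} (hP : Irreducible P) {x y : F[X]} (hx : ¬ P ∣ x) (hy : ¬ P ∣ y) :
    ¬ P ∣ x * y := fun h => (hP.prime.dvd_or_dvd h).elim hx hy

/-- Clearing the denominators. -/
theorem clear (h : (RatFunc F)[X]) : ∃ (d : F[X]) (p : F[X][X]), d ≠ 0 ∧ C (rf d) * h = lf p := by
  obtain ⟨b, hb, hh⟩ := IsLocalization.integerNormalization_spec (nonZeroDivisors F[X]) h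
  refine ⟨b, IsLocalization.integerNormalization (nonZeroDivisors F[X]) h,
    nonZeroDivisors.ne_zero hb, ?_⟩
  rw [lf, hh]
  ext1 i
  rw [coeff_C_mul, coeff_smul, Algebra.smul_def]

theorem norm_ne {f : F[X] × F[X] × F[X]} {h : (RatFunc F)[X]} (hc : IsCoprime h (cubK f)) :
    Algebra.norm (RatFunc F) (AdjoinRoot.mk (cubK f) h) ≠ 0 := by
  have h1 : IsUnit (AdjoinRoot.mk (cubK f) h) := by
    obtain ⟨u, v, huv⟩ := hc
    refine IsUnit.of_mul_eq_one (AdjoinRoot.mk (cubK f) u) ?_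
    rw [← map_mul, ← map_one (AdjoinRoot.mk (cubK f)), ← sub_eq_zero, ← map_sub,
      AdjoinRoot.mk_eq_zero]
    exact ⟨-v, by linear_combination huv⟩
  exact (h1.map (Algebra.norm (RatFunc F))).ne_zero

end CLA

open CLA in
theorem cla (hSPU : SPUStmt) : CLAStmt := by
  intro F _ _ _ P f hPm hP hT h hc hsq
  obtain ⟨e, β, γ, hS⟩ := hT
  obtain ⟨hδ, -, -, hcv, ν, hν, hPν, -⟩ := (hSPU F P f hPm hP).2 e β γ hS
  have hnv : nn f (vp P β γ) = P ^ 2 * ν := nn_eq hν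
  obtain ⟨ν1, hnu, hPν1⟩ := nn_up hP hS hnv hPν
  obtain ⟨d, p1, hd, hp1⟩ := clear h
  obtain ⟨p0, hp0⟩ : ∃ p0 : F[X][X], lf p0 = h * C (rf d) ^ 2 := by
    refine ⟨C d * p1, ?_⟩
    have e1 : lf (C d * p1) = C (rf d) * lf p1 := by
      rw [lf, Polynomial.map_mul, Polynomial.map_C]
    rw [e1, ← hp1]
    ring
  have hrd : rf d ≠ 0 := by simpa using hd
  have hcd : IsCoprime (C (rf d)) (cubK f) := by
    refine ⟨C (rf d)⁻¹, 0, ?_⟩
    rw [← C_mul, inv_mul_cancel₀ hrd]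
    simp
  have hnr : rf (nn f p0) = Algebra.norm (RatFunc F) (AdjoinRoot.mk (cubK f) h) *
      (Algebra.norm (RatFunc F) (AdjoinRoot.mk (cubK f) (C (rf d)))) ^ 2 := by
    rw [← nn_norm, hp0, map_mul, map_mul, map_pow, map_pow]
  have hn0 : nn f p0 ≠ 0 := by
    intro h0
    rw [h0] at hnr
    have h1 := mul_ne_zero (norm_ne hc) (pow_ne_zero 2 (norm_ne hcd))
    rw [← hnr] at h1
    exact h1 (by simp)
  have hnsq : IsSquare (nn f p0) := by
    apply TY.sq_rf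
    rw [hnr]
    obtain ⟨z, hz⟩ := hsq
    exact ⟨z * Algebra.norm (RatFunc F) (AdjoinRoot.mk (cubK f) (C (rf d))), by rw [hz]; ring⟩
  obtain ⟨n, hn⟩ := FiniteMultiplicity.of_not_isUnit hP.not_isUnit hn0
  obtain ⟨a, b, V, p, hV, hp, hdiv⟩ := fac hP hS (hnv ▸ ⟨P * ν, by ring⟩) (hnu ▸ ⟨ν1, rfl⟩)
    (n + 1) p0 hn
  -- parity
  have hnorm := nn_congr hdiv
  rw [nn_mul, nn_mul, nn_mul, nn_pow, nn_pow, hnv, hnu] at hnorm
  obtain ⟨S, hS2⟩ := hnsq
  have hS0 : S ≠ 0 := by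
    rintro rfl
    exact hn0 (by rw [hS2]; ring)
  obtain ⟨S', hSe, hS'⟩ := (FiniteMultiplicity.of_not_isUnit hP.not_isUnit
    hS0).exists_eq_pow_mul_and_not_dvd
  set k := multiplicity P S with hk
  have hpar : 2 * k = a + 2 * b := by
    refine par hP (U := nn f V * S' ^ 2) (W := ν1 ^ a * ν ^ b * nn f p)
      (ndvd_mul hP ((nn_unp hP f V).1 hV) (ndvd_pow hP hS' 2))
      (ndvd_mul hP (ndvd_mul hP (ndvd_pow hP hPν1 a) (ndvd_pow hP hPν b))
        ((nn_unp hP f p).1 hp)) ?_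
    rw [hS2, hSe] at hnorm
    rw [pow_add, pow_mul', pow_mul, mul_pow, mul_pow] at *
    linear_combination hnorm
  obtain ⟨a', rfl⟩ : ∃ a', a = 2 * a' := ⟨k - b, by omega⟩
  obtain ⟨b', j, hj, rfl⟩ : ∃ b' j, j < 2 ∧ b = 2 * b' + j :=
    ⟨b / 2, b % 2, Nat.mod_lt _ two_pos, (Nat.div_add_mod b 2).symm⟩
  have hcu : IsCoprime (lf (up P e)) (cubK f) := by
    refine USE.coprime_of_norm _ _ (USE.cubK_monic f) ?_
    rw [nn_norm, hnu]
    have : P * ν1 ≠ 0 := mul_ne_zero hP.ne_zero fun h0 => hPν1 (h0 ▸ dvd_zero P)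
    simpa using this
  have hcg : IsCoprime (lf (up P e) ^ a' * lf (vp P β γ) ^ b') (cubK f) :=
    (hcu.pow_left).mul_left (hcv.pow_left)
  obtain ⟨v, v', hvv⟩ := hcg
  have hd2 := PLP.lf_dvd hdiv
  have e2 : lf (V * p0 - up P e ^ (2 * a') * vp P β γ ^ (2 * b' + j) * p) =
      lf V * (h * C (rf d) ^ 2) - lf (up P e) ^ (2 * a') * lf (vp P β γ) ^ (2 * b' + j) * lf p := by
    rw [← hp0]
    simp only [lf, Polynomial.map_sub, Polynomial.map_mul, Polynomial.map_pow]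
  rw [e2] at hd2
  obtain ⟨z, hz⟩ := hd2
  have hmain : cubK f ∣ h * (C (rf d) * lf V * v) ^ 2 - lf (vp P β γ ^ j * (V * p)) := by
    have e3 : lf (vp P β γ ^ j * (V * p)) = lf (vp P β γ) ^ j * (lf V * lf p) := by
      simp only [lf, Polynomial.map_mul, Polynomial.map_pow]
    rw [e3]
    set G := lf (up P e) ^ a' * lf (vp P β γ) ^ b' with hG
    have e4 : lf (up P e) ^ (2 * a') * lf (vp P β γ) ^ (2 * b' + j) =
        G ^ 2 * lf (vp P β γ) ^ j := by
      rw [hG]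
      ring
    rw [e4] at hz
    refine ⟨z * lf V * v ^ 2 - v' * (v * G + 1) * (lf (vp P β γ) ^ j * (lf V * lf p)), ?_⟩
    linear_combination (lf V * v ^ 2) * hz +
      ((v * G + 1) * (lf (vp P β γ) ^ j * (lf V * lf p))) * hvv
  have hj2 : ((j : ℕ) : ZMod 2).val = j := by
    rw [ZMod.val_natCast, Nat.mod_eq_of_lt hj]
  by_cases hc2 : SqM P ((V * p).eval e * (e ^ 2 + β * e + γ) ^ j)
  · refine ⟨((j : ZMod 2), 0), e, β, γ, C (rf d) * lf V * v, V * p, hS, ?_,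
      unp_mul hP hV hp, ?_⟩
    · simp only [hj2]
      exact hmain
    · simp only [hj2]
      exact ⟨fun _ => hc2, fun _ => trivial⟩
  · refine ⟨((j : ZMod 2), 1), e, β, γ, C (rf d) * lf V * v, V * p, hS, ?_,
      unp_mul hP hV hp, ?_⟩
    · simp only [hj2]
      exact hmain
    · simp only [hj2]
      exact ⟨fun h0 => absurd h0 one_ne_zero, fun h0 => absurd h0 hc2⟩

end Pool.PRL
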