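import Pool.Agent.H55.PRL.TYP
import Pool.Agent.H54.RZ.NUN
import Pool.Agent.H77.RZ.LM
import Pool.Agent.H69.RZ.USE
import Pool.Agent.H33.AVS.NGH

/-!
# PRL, module LMI: the lattice of a class of type `(0, 1)` has no common isotropic vector mod `P`
-/

set_option autoImplicit false

namespace Pool.PRL

open Polynomial Matrix Pool.AVR Pool.AVS Pool.RZ

namespace LMI

section Residue

variable {k : Type} [Field k]

theorem cub_fac (e β γ : k) : cub (β - e) (γ - e * β) (-(e * γ)) =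
    (X - C e) * (X ^ 2 + C β * X + C γ) := by
  unfold cub
  simp only [map_sub, map_mul, map_neg]
  ring

theorem q_irr (β γ : k) (h : ∀ x : k, x ^ 2 + β * x + γ ≠ 0) :
    Irreducible (X ^ 2 + C β * X + C γ : k[X]) := by
  have hm : (X ^ 2 + C β * X + C γ : k[X]).Monic := by monicity!
  have hd : (X ^ 2 + C β * X + C γ : k[X]).natDegree = 2 := by compute_degree!
  rw [hm.irreducible_iff_roots_eq_zero_of_degree_le_three (by rw [hd]) (by rw [hd]; norm_num)]
  rw [Multiset.eq_zero_iff_forall_notMem]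
  intro x hx
  have h1 := (mem_roots hm.ne_zero).1 hx
  have h2 : (X ^ 2 + C β * X + C γ : k[X]).eval x = 0 := h1
  simp only [eval_add, eval_pow, eval_X, eval_mul, eval_C] at h2
  exact h x h2

/-- The main step over the residue field. -/
theorem res (e β γ : k) (hirr : ∀ x : k, x ^ 2 + β * x + γ ≠ 0) (p p' q Z : k[X])
    (hu : p * p' - 1 = cub (β - e) (γ - e * β) (-(e * γ)) * q)
    (hN : IsSquare (Algebra.norm k (AdjoinRoot.mk (cub (β - e) (γ - e * β) (-(e * γ))) p)))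
    (hns : ¬ IsSquare (p.eval e)) (hZ : Z.natDegree ≤ 2)
    (h0 : tau (β - e) (γ - e * β) (-(e * γ)) (p * Z ^ 2) = 0)
    (h1 : tau (β - e) (γ - e * β) (-(e * γ)) (X * (p * Z ^ 2)) = 0) : Z = 0 := by
  set a := β - e with ha
  set b := γ - e * β with hb
  set c := -(e * γ) with hc
  have hroot : (cub a b c).eval e = 0 := by
    rw [ha, hb, hc, cub_fac]
    simp
  obtain ⟨r0, r1, r2, hr⟩ := NUN.exists_rep a b c (p * Z ^ 2)
  have e2 : NUN.tR a b c (p * Z ^ 2) = r2 := NUN.tR0 hr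
  have hr2 : r2 = 0 := by rw [← e2]; exact h0
  have e1 := NUN.tR0 (NUN.stepX hr)
  have hr1 : r1 = 0 := by
    have h3 : NUN.tR a b c (X * (p * Z ^ 2)) = 0 := h1
    rw [e1, hr2] at h3
    linear_combination h3
  rw [hr2, hr1] at hr
  have hr' : cub a b c ∣ p * Z ^ 2 - C r0 := by
    have h3 : (C (0 : k) * X ^ 2 + C 0 * X + C r0) = C r0 := by simp
    rwa [h3] at hr
  by_cases hr0 : r0 = 0
  · -- the class is zero
    rw [hr0, C_0, sub_zero] at hr'
    have hcop : IsCoprime (cub a b c) p := ⟨-q, p', by linear_combination hu⟩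
    have h3 : cub a b c ∣ Z ^ 2 := hcop.dvd_of_dvd_mul_left hr'
    have hq := q_irr β γ hirr
    have h4 : (X - C e) ∣ Z := by
      have h5 : (X - C e) ∣ Z ^ 2 := by
        refine dvd_trans ?_ h3
        rw [ha, hb, hc, cub_fac]
        exact dvd_mul_right _ _
      exact (prime_X_sub_C e).dvd_of_dvd_pow h5
    have h6 : (X ^ 2 + C β * X + C γ) ∣ Z := by
      have h5 : (X ^ 2 + C β * X + C γ) ∣ Z ^ 2 := by
        refine dvd_trans ?_ h3
        rw [ha, hb, hc, cub_fac]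
        exact dvd_mul_left _ _
      exact hq.prime.dvd_of_dvd_pow h5
    have h7 : IsCoprime (X - C e) (X ^ 2 + C β * X + C γ) := by
      refine (prime_X_sub_C e).irreducible.coprime_iff_not_dvd.2 ?_
      intro h8
      have h9 := dvd_iff_isRoot.1 h8
      have h10 : (X ^ 2 + C β * X + C γ : k[X]).eval e = 0 := h9
      simp only [eval_add, eval_pow, eval_X, eval_mul, eval_C] at h10
      exact hirr e h10
    have h8 : cub a b c ∣ Z := by
      rw [ha, hb, hc, cub_fac]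
      exact h7.mul_dvd h4 h6
    by_contra hne
    have := natDegree_le_of_dvd h8 hne
    rw [NUN.cub_natDegree] at this
    omega
  · exfalso
    apply hns
    have hev : p.eval e * (Z.eval e) ^ 2 = r0 := by
      obtain ⟨w, hw⟩ := hr'
      have h3 := congrArg (eval e) hw
      rw [eval_mul, hroot, zero_mul, eval_sub, eval_mul, eval_pow, eval_C] at h3
      linear_combination h3
    have hZe : Z.eval e ≠ 0 := by
      intro h3
      apply hr0
      rw [← hev, h3]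
      ring
    -- the norm
    have hn : Algebra.norm k (AdjoinRoot.mk (cub a b c) (p * Z ^ 2)) = r0 ^ 3 := by
      have h3 := NGH.det_gr0 a b c (p * Z ^ 2)
      have h4 := NUN.det_G hr
      have h5 : NUN.G a b c (p * Z ^ 2) = gr0 a b c (p * Z ^ 2) := rfl
      rw [h5, h3] at h4
      have h6 := neg_injective h4
      rw [h6]
      unfold NUN.nu
      ring
    obtain ⟨w, hw⟩ := hN
    rw [map_mul, map_pow, map_mul, map_pow, hw] at hn
    set n := Algebra.norm k (AdjoinRoot.mk (cub a b c) Z) with hnd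
    refine ⟨w * n / (r0 * Z.eval e), ?_⟩
    field_simp
    have h9 : p.eval e * (r0 ^ 2 * (Z.eval e) ^ 2) = w ^ 2 * n ^ 2 := by
      have h10 : p.eval e * (r0 ^ 2 * (Z.eval e) ^ 2) = r0 ^ 3 := by
        linear_combination r0 ^ 2 * hev
      rw [h10, ← hn]
      ring
    linear_combination h9

end Residue

section Local

variable {F : Type} [Field F]

theorem mem_IP_iff (P : F[X]) (x : RatFunc F) (h : x ∈ IP P) :
    ∃ a b : F[X], ¬ P ∣ b ∧ b ≠ 0 ∧ x = rf a / rf b :=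
  ⟨x.num, x.denom, h, x.denom_ne_zero, (RatFunc.num_div_denom x).symm⟩

/-- Common denominator. -/
theorem common (P : F[X]) (hP : Irreducible P) (z : Fin 3 → RatFunc F) (hz : ∀ i, z i ∈ IP P) :
    ∃ (x : Fin 3 → F[X]) (D : F[X]), ¬ P ∣ D ∧ D ≠ 0 ∧ ∀ i, rf D * z i = rf (x i) := by
  obtain ⟨a0, b0, h0, h0', e0⟩ := mem_IP_iff P (z 0) (hz 0)
  obtain ⟨a1, b1, h1, h1', e1⟩ := mem_IP_iff P (z 1) (hz 1)
  obtain ⟨a2, b2, h2, h2', e2⟩ := mem_IP_iff P (z 2) (hz 2)
  have n0 : rf b0 ≠ 0 := by simpa using h0'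
  have n1 : rf b1 ≠ 0 := by simpa using h1'
  have n2 : rf b2 ≠ 0 := by simpa using h2'
  refine ⟨![a0 * (b1 * b2), a1 * (b0 * b2), a2 * (b0 * b1)], b0 * (b1 * b2), ?_, ?_, ?_⟩
  · intro h
    rcases hP.prime.dvd_or_dvd h with h | h
    · exact h0 h
    · rcases hP.prime.dvd_or_dvd h with h | h
      · exact h1 h
      · exact h2 h
  · exact mul_ne_zero h0' (mul_ne_zero h1' h2')
  · intro i
    fin_cases i
    · change rf (b0 * (b1 * b2)) * z 0 = rf (a0 * (b1 * b2))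
      rw [e0]
      simp only [rf, map_mul] at n0 n1 n2 ⊢
      field_simp
    · change rf (b0 * (b1 * b2)) * z 1 = rf (a1 * (b0 * b2))
      rw [e1]
      simp only [rf, map_mul] at n0 n1 n2 ⊢
      field_simp
    · change rf (b0 * (b1 * b2)) * z 2 = rf (a2 * (b0 * b1))
      rw [e2]
      simp only [rf, map_mul] at n0 n1 n2 ⊢
      field_simp

theorem bil_scale (M : Matrix (Fin 3) (Fin 3) F[X]) (G : Matrix (Fin 3) (Fin 3) (RatFunc F))
    (hG : ∀ i j, G i j = rf (M i j)) (z : Fin 3 → RatFunc F) (x : Fin 3 → F[X]) (D : F[X])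
    (h : ∀ i, rf D * z i = rf (x i)) : rf (bil M x x) = rf D ^ 2 * bil G z z := by
  have e1 : rf (bil M x x) = ∑ i, rf (x i) * ∑ j, rf (M i j) * rf (x j) := by
    simp only [bil, dotProduct, mulVec, rf, map_sum, map_mul]
  rw [e1]
  simp only [bil, dotProduct, mulVec, Fin.sum_univ_three, ← h, hG]
  ring

theorem dvd_of_mem (P : F[X]) (hP : Irreducible P) (y : F[X]) (D : F[X]) (t : RatFunc F)
    (hy : rf y = rf D ^ 2 * t) (ht : t / rf P ∈ IP P) : P ∣ y := by
  obtain ⟨a, b, hb, hb0, e⟩ := mem_IP_iff P _ ht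
  have nP : rf P ≠ 0 := by simpa using hP.ne_zero
  have nb : rf b ≠ 0 := by simpa using hb0
  have h1 : t = rf P * (rf a / rf b) := by
    rw [← e]
    field_simp
  rw [h1] at hy
  have h2 : rf (y * b) = rf (P * (D ^ 2 * a)) := by
    simp only [rf, map_mul, map_pow] at hy nb nP ⊢
    rw [hy]
    field_simp
  have h3 := NUN.rf_inj h2
  have h4 : P ∣ y * b := ⟨_, h3⟩
  rcases hP.prime.dvd_or_dvd h4 with h | h
  · exact h
  · exact absurd h hb

theorem mem_of_dvd (P : F[X]) (hP : Irreducible P) (y : F[X]) (D : F[X]) (t : RatFunc F)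
    (hD : ¬ P ∣ D) (hD0 : D ≠ 0) (hy : rf D * t = rf y) (h : P ∣ y) : t / rf P ∈ IP P := by
  obtain ⟨w, hw⟩ := h
  have nP : rf P ≠ 0 := by simpa using hP.ne_zero
  have nD : rf D ≠ 0 := by simpa using hD0
  have h1 : t / rf P = rf w / rf D := by
    rw [hw] at hy
    simp only [rf, map_mul] at hy nP nD ⊢
    rw [div_eq_div_iff nP nD]
    linear_combination hy
  rw [h1]
  exact USE.mem_IP_div hD

end Local

section Gram

variable {R : Type} [CommRing R] {a b c : R}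

theorem tR_congr {p q : R[X]} (h : cub a b c ∣ p - q) : NUN.tR a b c p = NUN.tR a b c q := by
  unfold NUN.tR
  have h1 : (p - q) %ₘ cub a b c = 0 :=
    (modByMonic_eq_zero_iff_dvd (NUN.cub_monic a b c)).2 h
  rw [sub_modByMonic] at h1
  rw [sub_eq_zero.1 h1]

theorem tR_add (a b c : R) (p q : R[X]) :
    NUN.tR a b c (p + q) = NUN.tR a b c p + NUN.tR a b c q := by
  unfold NUN.tR
  rw [add_modByMonic, coeff_add]

theorem tR_C_mul (a b c : R) (x : R) (p : R[X]) :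
    NUN.tR a b c (C x * p) = x * NUN.tR a b c p := by
  unfold NUN.tR
  rw [← smul_eq_C_mul, smul_modByMonic, coeff_smul, smul_eq_mul]

/-- The quadratic form in terms of `τ`. -/
theorem bil_tR (a b c : R) (Y p : R[X]) (x : Fin 3 → R) :
    bil (Matrix.of fun i j : Fin 3 => NUN.tR a b c (Y * (X ^ (i : ℕ) * X ^ (j : ℕ) * p))) x x =
      NUN.tR a b c (Y * (p * (C (x 2) * X ^ 2 + C (x 1) * X + C (x 0)) ^ 2)) := by
  have e2 : Y * (p * (C (x 2) * X ^ 2 + C (x 1) * X + C (x 0)) ^ 2) =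
      C (x 0 * x 0) * (Y * (X ^ ((0 : Fin 3) : ℕ) * X ^ ((0 : Fin 3) : ℕ) * p)) +
      C (x 0 * x 1) * (Y * (X ^ ((0 : Fin 3) : ℕ) * X ^ ((1 : Fin 3) : ℕ) * p)) +
      C (x 0 * x 2) * (Y * (X ^ ((0 : Fin 3) : ℕ) * X ^ ((2 : Fin 3) : ℕ) * p)) +
      C (x 1 * x 0) * (Y * (X ^ ((1 : Fin 3) : ℕ) * X ^ ((0 : Fin 3) : ℕ) * p)) +
      C (x 1 * x 1) * (Y * (X ^ ((1 : Fin 3) : ℕ) * X ^ ((1 : Fin 3) : ℕ) * p)) +
      C (x 1 * x 2) * (Y * (X ^ ((1 : Fin 3) : ℕ) * X ^ ((2 : Fin 3) : ℕ) * p)) +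
      C (x 2 * x 0) * (Y * (X ^ ((2 : Fin 3) : ℕ) * X ^ ((0 : Fin 3) : ℕ) * p)) +
      C (x 2 * x 1) * (Y * (X ^ ((2 : Fin 3) : ℕ) * X ^ ((1 : Fin 3) : ℕ) * p)) +
      C (x 2 * x 2) * (Y * (X ^ ((2 : Fin 3) : ℕ) * X ^ ((2 : Fin 3) : ℕ) * p)) := by
    simp only [C_mul, Fin.val_zero, Fin.val_one, Fin.val_two, pow_zero, pow_one]
    ring
  rw [e2]
  simp only [tR_add, tR_C_mul, bil, dotProduct, mulVec, Fin.sum_univ_three, Matrix.of_apply]
  ring

end Gram

end LMI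

open PU LMI in
theorem lmi : LMIStmt := by
  intro F _ _ h2 P f hPm hP h hN hT
  obtain ⟨e, β, γ, s, p, hSpl, hs0, hU, hsq0⟩ := hT
  obtain ⟨hirr0, hf1, hf2, hf3, -, -, -⟩ := hSpl
  have hs : cubK f ∣ h * s ^ 2 - lf p := by
    have h1 : vp P β γ ^ ((0, 1) : Ty).1.val * p = p := by
      have : ((0, 1) : Ty).1.val = 0 := rfl
      rw [this, pow_zero, one_mul]
    rwa [h1] at hs0
  have hsq : ¬ SqM P (p.eval e) := by
    intro h1
    have h3 : p.eval e * (e ^ 2 + β * e + γ) ^ ((0, 1) : Ty).1.val = p.eval e := by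
      have : ((0, 1) : Ty).1.val = 0 := rfl
      rw [this, pow_zero, mul_one]
    rw [h3] at hsq0
    have h4 := hsq0.2 h1
    exact absurd h4 (by decide)
  obtain ⟨g, hg, hg0, hg1, hG, hM⟩ := USE.core lm_thm (nun_thm ngh_thm) P f h s p hP hs hU
  refine ⟨g, hg, hg0.symm ▸ hG, hg1.symm ▸ hM, ?_⟩
  rw [hg0, hg1]
  intro z hz hz0 hz1
  obtain ⟨x, D, hD, hD0, hx⟩ := common P hP z hz
  -- the residue field
  have : Fact (Irreducible P) := ⟨hP⟩
  set k := AdjoinRoot P with hk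
  set φ : F[X] →+* k := AdjoinRoot.mk P with hφ
  have hφs : Function.Surjective φ := AdjoinRoot.mk_surjective
  have hφ0 : ∀ x, φ x = 0 ↔ P ∣ x := fun x => AdjoinRoot.mk_eq_zero
  obtain ⟨p', r, q, hq⟩ := hU
  obtain ⟨ν, hν, hνc⟩ := TYP.norm_red φ f p
  have ha : φ f.1 = φ β - φ e := by
    rw [← map_sub, ← sub_eq_zero, ← map_sub, hφ0]
    exact hf1
  have hb : φ f.2.1 = φ γ - φ e * φ β := by
    rw [← map_mul, ← map_sub, ← sub_eq_zero, ← map_sub, hφ0]
    exact hf2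
  have hc : φ f.2.2 = -(φ e * φ γ) := by
    rw [eq_neg_iff_add_eq_zero, ← map_mul, ← map_add, hφ0]
    exact hf3
  have hirr : ∀ x : k, x ^ 2 + φ β * x + φ γ ≠ 0 := by
    intro x h0
    obtain ⟨y, rfl⟩ := hφs x
    rw [← map_pow, ← map_mul, ← map_add, ← map_add, hφ0] at h0
    exact hirr0 y h0
  have hpe : (p.map φ).eval (φ e) = φ (p.eval e) := by
    rw [eval_map_apply]
  have hcubmap : (cubP f).map φ = cub (φ β - φ e) (φ γ - φ e * φ β) (-(φ e * φ γ)) := by
    rw [cubP, TY.cub_map, ← ha, ← hb, ← hc]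
  have hφP : φ P = 0 := (hφ0 P).2 dvd_rfl
  have hqc : (p.map φ) * (p'.map φ) - 1 =
      cub (φ β - φ e) (φ γ - φ e * φ β) (-(φ e * φ γ)) * (q.map φ) := by
    have h3 := congrArg (Polynomial.map φ) hq
    rw [Polynomial.map_mul, hcubmap, Polynomial.map_sub, Polynomial.map_sub, Polynomial.map_mul,
      Polynomial.map_mul, map_C, hφP, C_0, zero_mul, sub_zero, Polynomial.map_one] at h3
    exact h3
  have hNp : IsSquare ν := by
    apply TY.sq_rf
    rw [← hν]
    have h3 : AdjoinRoot.mk (cubK f) (lf p) = AdjoinRoot.mk (cubK f) h *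
        AdjoinRoot.mk (cubK f) s ^ 2 := by
      rw [← map_pow, ← map_mul, eq_comm, ← sub_eq_zero, ← map_sub]
      exact AdjoinRoot.mk_eq_zero.2 hs
    rw [h3, map_mul, map_pow]
    exact hN.mul (IsSquare.sq _)
  have hNk : IsSquare (Algebra.norm k (AdjoinRoot.mk
      (cub (φ β - φ e) (φ γ - φ e * φ β) (-(φ e * φ γ))) (p.map φ))) := by
    rw [ha, hb, hc] at hνc
    rw [hνc]
    exact hNp.map φ
  have hnsq : ¬ IsSquare ((p.map φ).eval (φ e)) := by
    rintro ⟨w, hw⟩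
    apply hsq
    obtain ⟨w', rfl⟩ := hφs w
    refine ⟨w', ?_⟩
    rw [← hφ0, map_sub, map_pow, ← hpe, hw]
    ring
  -- the integral forms
  set Z : F[X][X] := C (x 2) * X ^ 2 + C (x 1) * X + C (x 0) with hZ
  have t0 : φ (NUN.tR f.1 f.2.1 f.2.2 (1 * (p * Z ^ 2))) = 0 := by
    rw [hφ0, hZ, ← bil_tR]
    refine dvd_of_mem P hP _ D _ (bil_scale _ (g0 f (lf p)) ?_ z x D hx) hz0
    intro i j
    rw [NUN.g0_lf]
    simp only [Matrix.map_apply, Matrix.of_apply, one_mul]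
    rfl
  have t1 : φ (NUN.tR f.1 f.2.1 f.2.2 (X * (p * Z ^ 2))) = 0 := by
    rw [hφ0, hZ, ← bil_tR]
    refine dvd_of_mem P hP _ D _ (bil_scale _ (g1 f (lf p)) ?_ z x D hx) hz1
    intro i j
    rw [NUN.g1_lf]
    rfl
  have key : ∀ w : F[X][X], φ (NUN.tR f.1 f.2.1 f.2.2 w) =
      tau (φ β - φ e) (φ γ - φ e * φ β) (-(φ e * φ γ)) (w.map φ) := by
    intro w
    rw [← ha, ← hb, ← hc]
    exact (TY.tauR_map φ f.1 f.2.1 f.2.2 w).symm
  rw [key, one_mul, Polynomial.map_mul, Polynomial.map_pow] at t0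
  rw [key, Polynomial.map_mul, Polynomial.map_mul, Polynomial.map_pow, map_X] at t1
  have hZk : Z.map φ = C (φ (x 2)) * X ^ 2 + C (φ (x 1)) * X + C (φ (x 0)) := by
    rw [hZ]
    simp
  have hZd : (Z.map φ).natDegree ≤ 2 := by
    rw [hZk]
    compute_degree
  have hZ0 := res (φ e) (φ β) (φ γ) hirr (p.map φ) (p'.map φ) (q.map φ) (Z.map φ) hqc hNk hnsq
    hZd t0 t1
  rw [hZk] at hZ0
  obtain ⟨c2, c1, c0⟩ : φ (x 2) = 0 ∧ φ (x 1) = 0 ∧ φ (x 0) = 0 := by
    have c2 := congrArg (fun p => p.coeff 2) hZ0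
    have c1 := congrArg (fun p => p.coeff 1) hZ0
    have c0 := congrArg (fun p => p.coeff 0) hZ0
    simp [coeff_X, coeff_C] at c2 c1 c0
    exact ⟨c2, c1, c0⟩
  intro i
  refine mem_of_dvd P hP (x i) D (z i) hD hD0 (hx i) ?_
  fin_cases i
  · exact (hφ0 _).1 c0
  · exact (hφ0 _).1 c1
  · exact (hφ0 _).1 c2

end Pool.PRL
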